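import Pool.Agent.KTK.Stmts2

/-!
# KTK, row RDB: reduction to the best denominators
-/

set_option autoImplicit false

namespace Pool.Agent.KTK.H36

open Pool.Agent.PRT Pool.Agent.KTK

/-- the partial geometric sum over `n < K` with `q ≤ 2^n` -/
theorem geo (q : ℕ) (hq : 1 ≤ q) (K : ℕ) :
    ((q ≤ 2 ^ K → ∑ n ∈ Finset.range K, (if q ≤ 2 ^ n then (1 / 2 : ℝ) ^ n else 0) ≤
      2 / q - 2 / 2 ^ K) ∧
    (2 ^ K < q → ∑ n ∈ Finset.range K, (if q ≤ 2 ^ n then (1 / 2 : ℝ) ^ n else 0) = 0)) := by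
  have hq0 : (0 : ℝ) < q := by exact_mod_cast hq
  induction K with
  | zero =>
    constructor
    · intro h
      have h1 : q = 1 := by
        have : q ≤ 1 := by simpa using h
        omega
      subst h1
      simp
    · intro _
      simp
  | succ K ih =>
    rw [Finset.sum_range_succ]
    by_cases h : q ≤ 2 ^ K
    · have h1 := ih.1 h
      constructor
      · intro _
        rw [if_pos h]
        have h2 : (1 / 2 : ℝ) ^ K = 1 / 2 ^ K := by rw [one_div_pow]
        have h3 : (2 : ℝ) / 2 ^ (K + 1) = 1 / 2 ^ K := by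
          rw [pow_succ]
          field_simp
        have h4 : (2 : ℝ) / 2 ^ K = 1 / 2 ^ K + 1 / 2 ^ K := by ring
        rw [h2, h3]
        rw [h4] at h1
        linarith
      · intro h2
        exfalso
        have h3 : 2 ^ K ≤ 2 ^ (K + 1) := Nat.pow_le_pow_right (by norm_num) (by omega)
        omega
    · have h1 := ih.2 (not_le.1 h)
      constructor
      · intro h2
        rw [if_neg h, h1]
        have h3 : (q : ℝ) ≤ 2 ^ (K + 1) := by exact_mod_cast h2
        have h4 : (2 : ℝ) / 2 ^ (K + 1) ≤ 2 / q :=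
          div_le_div_of_nonneg_left (by norm_num) hq0 h3
        linarith
      · intro _
        rw [if_neg h, h1]
        simp

theorem geo' (q : ℕ) (hq : 1 ≤ q) (K : ℕ) :
    (q : ℝ) * ∑ n ∈ Finset.range K, (if q ≤ 2 ^ n then (1 / 2 : ℝ) ^ n else 0) ≤ 2 := by
  have hq0 : (0 : ℝ) < q := by exact_mod_cast hq
  rcases le_or_gt q (2 ^ K) with h | h
  · have h1 := (geo q hq K).1 h
    have h2 : (0 : ℝ) ≤ 2 / 2 ^ K := by positivity
    have h3 : ∑ n ∈ Finset.range K, (if q ≤ 2 ^ n then (1 / 2 : ℝ) ^ n else 0) ≤ 2 / q := by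
      linarith
    calc (q : ℝ) * ∑ n ∈ Finset.range K, (if q ≤ 2 ^ n then (1 / 2 : ℝ) ^ n else 0)
        ≤ q * (2 / q) := mul_le_mul_of_nonneg_left h3 hq0.le
      _ = 2 := by field_simp
  · rw [(geo q hq K).2 h]
    simp

theorem rdb (ndl : NdlStmt) : RdbStmt := by
  intro w hpos hNB hS
  apply hNB
  obtain ⟨F, hF⟩ : ∃ F : ℕ → ℝ, F = Set.indicator {q : ℕ | Bst w q}
    fun q => -Real.log (nd ((q : ℝ) • w)) / q := ⟨_, rfl⟩
  rw [← hF] at hS
  have hg0 : ∀ q : ℕ, 1 ≤ q → 0 ≤ -Real.log (nd ((q : ℝ) • w)) := by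
    intro q hq
    have h1 := (ndl ((q : ℝ) • w)).2.1
    have h2 := hpos q hq
    have h3 := Real.log_nonpos h2.le (by linarith)
    linarith
  have hF0 : ∀ q, 0 ≤ F q := by
    intro q
    rw [hF]
    apply Set.indicator_nonneg
    intro q hq
    exact div_nonneg (hg0 q hq.1) (Nat.cast_nonneg _)
  have hmin : ∀ n : ℕ, ∃ q0 : ℕ, 1 ≤ q0 ∧ q0 ≤ 2 ^ n ∧ dl w n = nd ((q0 : ℝ) • w) ∧
      ∀ j : ℕ, 1 ≤ j → j < q0 → nd ((q0 : ℝ) • w) < nd ((j : ℝ) • w) := by
    intro n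
    have hne : (Finset.Icc 1 (2 ^ n)).Nonempty := ⟨1, Finset.mem_Icc.2 ⟨le_rfl, Nat.one_le_two_pow⟩⟩
    obtain ⟨q1, hq1, hq1'⟩ := Finset.exists_mem_eq_inf' hne (fun q : ℕ => nd ((q : ℝ) • w))
    have hex : ∃ q : ℕ, q ∈ Finset.Icc 1 (2 ^ n) ∧ dl w n = nd ((q : ℝ) • w) := ⟨q1, hq1, hq1'⟩
    classical
    have h0 := Nat.find_spec hex
    refine ⟨Nat.find hex, (Finset.mem_Icc.1 h0.1).1, (Finset.mem_Icc.1 h0.1).2, h0.2, ?_⟩
    intro j hj1 hj2
    have hjm : j ∈ Finset.Icc 1 (2 ^ n) :=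
      Finset.mem_Icc.2 ⟨hj1, hj2.le.trans (Finset.mem_Icc.1 h0.1).2⟩
    have hle : dl w n ≤ nd ((j : ℝ) • w) :=
      Finset.inf'_le (fun q : ℕ => nd ((q : ℝ) • w)) hjm
    rw [← h0.2]
    apply lt_of_le_of_ne hle
    intro heq
    exact Nat.find_min hex hj2 ⟨hjm, heq⟩
  have hs2 : (0 : ℝ) < Real.sqrt 2 := Real.sqrt_pos.2 (by norm_num)
  have hs2' : Real.sqrt 2 < 2 := by
    rw [Real.sqrt_lt' (by norm_num)]
    norm_num
  have hr0 : (0 : ℝ) ≤ Real.sqrt 2 / 2 := by positivity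
  have hr1 : Real.sqrt 2 / 2 < 1 := by
    rw [div_lt_one (by norm_num)]
    exact hs2'
  have hterm0 : ∀ (n q : ℕ), 0 ≤ F q * q * (if q ≤ 2 ^ n then (1 / 2 : ℝ) ^ n else 0) := by
    intro n q
    apply mul_nonneg (mul_nonneg (hF0 q) (Nat.cast_nonneg _))
    split_ifs
    · positivity
    · exact le_rfl
  have hT : ∀ n K : ℕ, n < K → -Real.log (dl w n) / 2 ^ n ≤ (Real.sqrt 2 / 2) ^ n +
      ∑ q ∈ Finset.range (2 ^ K + 1), F q * q * (if q ≤ 2 ^ n then (1 / 2 : ℝ) ^ n else 0) := by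
    intro n K hnK
    obtain ⟨q0, h1, h2, h3, h4⟩ := hmin n
    have hsum0 : 0 ≤ ∑ q ∈ Finset.range (2 ^ K + 1),
        F q * q * (if q ≤ 2 ^ n then (1 / 2 : ℝ) ^ n else 0) :=
      Finset.sum_nonneg fun q _ => hterm0 n q
    have h2n : (0 : ℝ) < 2 ^ n := by positivity
    rcases le_or_gt (-Real.log (dl w n)) (Real.sqrt 2 ^ n) with h | h
    · have h5 : -Real.log (dl w n) / 2 ^ n ≤ (Real.sqrt 2 / 2) ^ n := by
        rw [div_pow]
        exact div_le_div_of_nonneg_right h h2n.le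
      linarith
    · have hB : Bst w q0 := by
        refine ⟨h1, h4, ?_⟩
        rw [h3] at h
        refine le_trans ?_ h.le
        have h5 : (q0 : ℝ) ≤ 2 ^ n := by exact_mod_cast h2
        have h6 : Real.sqrt q0 ≤ Real.sqrt (2 ^ n) := Real.sqrt_le_sqrt h5
        have h7 : Real.sqrt (2 ^ n) = Real.sqrt 2 ^ n := by
          rw [Real.sqrt_eq_iff_mul_self_eq (by positivity) (by positivity), ← mul_pow,
            Real.mul_self_sqrt (by norm_num)]
        rw [← h7]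
        exact h6
      have hFq : F q0 = -Real.log (nd ((q0 : ℝ) • w)) / q0 := by
        rw [hF]
        exact Set.indicator_of_mem (s := {q : ℕ | Bst w q}) hB _
      have hq0 : (q0 : ℝ) ≠ 0 := by
        have : 0 < q0 := h1
        exact_mod_cast this.ne'
      have h5 : F q0 * q0 * (if q0 ≤ 2 ^ n then (1 / 2 : ℝ) ^ n else 0) =
          -Real.log (dl w n) / 2 ^ n := by
        rw [if_pos h2, hFq, h3, div_mul_cancel₀ _ hq0, one_div_pow]
        ring
      have hmem : q0 ∈ Finset.range (2 ^ K + 1) := by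
        rw [Finset.mem_range]
        have h6 : 2 ^ n ≤ 2 ^ K := Nat.pow_le_pow_right (by norm_num) hnK.le
        omega
      have h6 := Finset.single_le_sum (f := fun q : ℕ => F q * q *
        (if q ≤ 2 ^ n then (1 / 2 : ℝ) ^ n else 0)) (fun q _ => hterm0 n q) hmem
      rw [h5] at h6
      have h7 : 0 ≤ (Real.sqrt 2 / 2) ^ n := pow_nonneg hr0 n
      linarith
  have hT0 : ∀ n : ℕ, 0 ≤ -Real.log (dl w n) / 2 ^ n := by
    intro n
    obtain ⟨q0, h1, h2, h3, h4⟩ := hmin n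
    rw [h3]
    exact div_nonneg (hg0 q0 h1) (by positivity)
  have hgs := summable_geometric_of_lt_one hr0 hr1
  apply summable_of_sum_range_le (c := (∑' n : ℕ, (Real.sqrt 2 / 2) ^ n) + 2 * ∑' q, F q) hT0
  intro K
  have h1 : ∑ n ∈ Finset.range K, -Real.log (dl w n) / 2 ^ n ≤
      ∑ n ∈ Finset.range K, ((Real.sqrt 2 / 2) ^ n +
        ∑ q ∈ Finset.range (2 ^ K + 1), F q * q * (if q ≤ 2 ^ n then (1 / 2 : ℝ) ^ n else 0)) :=
    Finset.sum_le_sum fun n hn => hT n K (Finset.mem_range.1 hn)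
  refine h1.trans ?_
  rw [Finset.sum_add_distrib, Finset.sum_comm]
  apply add_le_add
  · exact hgs.sum_le_tsum _ fun n _ => pow_nonneg hr0 n
  · have h2 : ∀ q ∈ Finset.range (2 ^ K + 1), ∑ n ∈ Finset.range K,
        F q * q * (if q ≤ 2 ^ n then (1 / 2 : ℝ) ^ n else 0) ≤ 2 * F q := by
      intro q _
      rw [← Finset.mul_sum, mul_assoc]
      by_cases hq : 1 ≤ q
      · have h3 := mul_le_mul_of_nonneg_left (geo' q hq K) (hF0 q)
        linarith
      · have hq' : q = 0 := by omega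
        subst hq'
        have h3 := hF0 0
        simp only [Nat.cast_zero, zero_mul, mul_zero]
        linarith
    refine (Finset.sum_le_sum h2).trans ?_
    rw [← Finset.mul_sum]
    exact mul_le_mul_of_nonneg_left (hS.sum_le_tsum _ fun q _ => hF0 q) (by norm_num)

end Pool.Agent.KTK.H36
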